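import Pool.Agent.Helper54.PT.LocG
import Pool.Agent.Helper92.TW.C8
import Pool.Agent.Helper99.TW.C9

/-!
# TG module K3: the local model of a place
-/

set_option autoImplicit false

namespace Pool.Agent.Helper54.PT

open Polynomial Finset Filter Topology Module Pool.Agent.Helper43.TW Pool.Agent.Helper47.BSD

namespace K3

section

variable {K : Type} [Field K] {ℓ : ℕ} [Fact ℓ.Prime]

/-- Classes of a completion are represented by elements of the field. -/
theorem dense_cl {p : ℕ} [CharP K p] (hp : p.Prime) (v : AbsoluteValue K ℝ) (hv : v.IsNontrivial)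
    {π : v.Completion} (hk : LF ℓ π) (z : Cl ℓ v.Completion) :
    ∃ x : K, x ≠ 0 ∧ cl ℓ (algebraMap K v.Completion x) = z := by
  have := ultra_completion v p hp
  let _ := nontrivNormed v hv
  obtain ⟨y, hy, rfl⟩ := cl_surj z
  have hy' : 0 < ‖y‖ := norm_pos_iff.2 hy
  obtain ⟨x, hx⟩ := Metric.denseRange_iff.1
    (UniformSpace.Completion.denseRange_coe (α := WithAbs v)) y ‖y‖ hy'
  have hx' : ‖y - (algebraMap K v.Completion x.ofAbs)‖ < ‖y‖ := by
    rw [dist_eq_norm] at hx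
    exact hx
  rw [norm_sub_rev] at hx'
  have h := cl_near (Fact.out : ℓ.Prime) hk hx'
  refine ⟨x.ofAbs, ?_, h.2.2⟩
  intro h0
  apply h.1
  rw [h0, map_zero]

/-- The common part of the local models. -/
theorem model_of {p : ℕ} [CharP K p] (hp : p.Prime) (v : AbsoluteValue K ℝ) (hv : v.IsNontrivial)
    {π : v.Completion} (hk : LF ℓ π) (cls : K → ZMod ℓ × ZMod ℓ)
    (hf : ∃ f : Cl ℓ v.Completion →+ ZMod ℓ × ZMod ℓ, Function.Injective f ∧
      ∀ x, x ≠ 0 → f (cl ℓ (algebraMap K v.Completion x)) = cls x)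
    (hm : cls (-1) = 0) (o : K → ℤ)
    (ho : ∀ x, x ≠ 0 → ‖algebraMap K v.Completion x‖ = ‖π‖ ^ o x)
    (hord : (∀ x, x ≠ 0 → (cls x).1 = (o x : ZMod ℓ)) ∨
      ∀ x, x ≠ 0 → (cls x).2 = -(o x : ZMod ℓ))
    {ι : Type} [Fintype ι] [DecidableEq ι] (a : ι → ℕ) :
    ∃ (k : Type) (_ : NontriviallyNormedField k) (_ : IsUltrametricDist k) (_ : CompleteSpace k)
      (π : k) (hk : LF ℓ π) (φ : K →+* k) (f : Cl ℓ k →+ ZMod ℓ × ZMod ℓ),
      FC hk f ∧ cl ℓ (-1 : k) = 0 ∧ (∀ x, x ≠ 0 → f (cl ℓ (φ x)) = cls x) ∧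
      (∀ E : ι → K, ∀ d ∈ selmerSet ℓ a E,
        mapUnits φ d ∈ descentGroup ℓ a fun i => φ (E i)) ∧
      ((∀ x, x ≠ 0 → (cls x).1 = (o x : ZMod ℓ)) → ∀ x, (f x).1 = nu hk x) ∧
        ∀ x, x ≠ 0 → ‖φ x‖ = ‖π‖ ^ o x := by
  obtain ⟨f, hinj, hfc⟩ := hf
  have hne : ∀ x : K, x ≠ 0 → algebraMap K v.Completion x ≠ 0 := fun x hx h =>
    hx ((map_eq_zero_iff _ (algebraMap K v.Completion).injective).1 h)
  have hfst : (∀ x, x ≠ 0 → (cls x).1 = (o x : ZMod ℓ)) → ∀ x, (f x).1 = nu hk x := by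
    intro h z
    obtain ⟨x, hx, rfl⟩ := dense_cl hp v hv hk z
    rw [hfc x hx, h x hx, nu_cl hk (hne x hx) (ho x hx)]
  have hsnd : (∀ x, x ≠ 0 → (cls x).2 = -(o x : ZMod ℓ)) → ∀ x, (f x).2 = -nu hk x := by
    intro h z
    obtain ⟨x, hx, rfl⟩ := dense_cl hp v hv hk z
    rw [hfc x hx, h x hx, nu_cl hk (hne x hx) (ho x hx)]
  have h1 : cl ℓ (-1 : v.Completion) = 0 := by
    apply hinj
    have h2 : (-1 : v.Completion) = algebraMap K v.Completion (-1) := by
      rw [map_neg, map_one]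
    rw [map_zero, h2, hfc _ (neg_ne_zero.2 one_ne_zero), hm]
  have := ultra_completion v p hp
  refine ⟨v.Completion, nontrivNormed v hv, this, inferInstance, π, hk, algebraMap K v.Completion,
    f, ⟨hinj, ?_⟩, h1, hfc, fun E d hd => hd v hv, hfst, ho⟩
  rcases hord with h | h
  · exact Or.inl (hfst h)
  · exact Or.inr (hsnd h)

end

end K3

variable {F : Type} [Field F] [Finite F] {ℓ : ℕ} [Fact ℓ.Prime] {lg : F → ZMod ℓ}

/-- K3: the local model of a place (with K0, K1, K2 as hypotheses) -/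
theorem local_model_aux
    (exists_fc : ∀ {K : Type} [Field K] {ℓ : ℕ} [Fact ℓ.Prime] (v : AbsoluteValue K ℝ)
      [IsUltrametricDist v.Completion] {π : v.Completion} (_ : LF ℓ π)
      (cls : K → ZMod ℓ × ZMod ℓ) (_ : ∀ x y, x ≠ 0 → y ≠ 0 → cls (x * y) = cls x + cls y)
      (_ : ∀ x, x ≠ 0 → (cls x = 0 ↔ ∃ y : v.Completion, algebraMap K v.Completion x = y ^ ℓ)),
      ∃ f : Cl ℓ v.Completion →+ ZMod ℓ × ZMod ℓ, Function.Injective f ∧
        ∀ x, x ≠ 0 → f (cl ℓ (algebraMap K v.Completion x)) = cls x)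
    (pow_of_class_absP : ∀ (_ : ℓ ∣ Nat.card F - 1) (_ : IsLog ℓ lg) (P : Prm F)
      (v : AbsoluteValue (RatFunc F) ℝ) (_ : v.IsNontrivial) (_ : IsAbsP P v) {x : RatFunc F}
      (_ : x ≠ 0) (_ : (ℓ : ℤ) ∣ ordK P x) (_ : rsK lg P x = 0),
      ∃ y : v.Completion, algebraMap (RatFunc F) v.Completion x = y ^ ℓ)
    (pow_of_class_absInf : ∀ (_ : ℓ ∣ Nat.card F - 1) (_ : IsLog ℓ lg)
      (v : AbsoluteValue (RatFunc F) ℝ) (_ : v.IsNontrivial) (_ : IsAbsInf v) {x : RatFunc F}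
      (_ : x ≠ 0) (_ : (ℓ : ℤ) ∣ x.intDegree) (_ : lg (lcK x) = 0),
      ∃ y : v.Completion, algebraMap (RatFunc F) v.Completion x = y ^ ℓ)
    (hq : ℓ ∣ Nat.card F - 1) (hlg : IsLog ℓ lg) (hm : lg (-1) = 0) {σ : Type}
    (R : σ → Prm F) {ι : Type} [Fintype ι] [DecidableEq ι] (a : ι → ℕ) (t : Option σ) :
    ∃ (k : Type) (_ : NontriviallyNormedField k) (_ : IsUltrametricDist k) (_ : CompleteSpace k)
      (π : k) (hk : LF ℓ π) (φ : RatFunc F →+* k) (f : Cl ℓ k →+ ZMod ℓ × ZMod ℓ),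
      FC hk f ∧ cl ℓ (-1 : k) = 0 ∧ (∀ x, x ≠ 0 → f (cl ℓ (φ x)) = clsT R lg x t) ∧
      (∀ E : ι → RatFunc F, ∀ d ∈ selmerSet ℓ a E,
        mapUnits φ d ∈ descentGroup ℓ a fun i => φ (E i)) ∧
      ∀ r, t = some r → (∀ x, (f x).1 = nu hk x) ∧
        ∀ x, x ≠ 0 → ‖φ x‖ = ‖π‖ ^ ordK (R r) x := by
  obtain ⟨p, hp⟩ := CharP.exists F
  have := hp
  have : CharP (RatFunc F) p := charP_of_injective_algebraMap (algebraMap F (RatFunc F)).injective p
  have hpp : p.Prime := CharP.char_is_prime F p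
  have hneg : (-1 : RatFunc F) = algebraMap F[X] (RatFunc F) (C (-1)) := by
    rw [C_neg, C_1, map_neg, map_one]
  cases t with
  | some r =>
    obtain ⟨v, hv, hvP⟩ := exists_absP (R r)
    have := ultra_completion v p hpp
    have hk := lf_absP hq (R r) v hvP
    have ho : ∀ x, x ≠ 0 → ‖algebraMap (RatFunc F) v.Completion x‖ =
        ‖algebraMap (RatFunc F) v.Completion (algebraMap F[X] (RatFunc F) (R r).1)‖ ^
          ordK (R r) x := by
      intro x hx
      rw [Pool.Agent.Helper47.BSD.norm_algebraMap, Pool.Agent.Helper47.BSD.norm_algebraMap,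
        hvP x hx, hvP _ (RatFunc.algebraMap_ne_zero (C7aux.prime (R r)).ne_zero),
        C7aux.ordK_prime_self, ← zpow_mul]
      congr 1
      ring
    have hcls : ∀ x, x ≠ 0 → (clsT R lg x (some r)).1 = (ordK (R r) x : ZMod ℓ) := fun x _ => rfl
    obtain ⟨k, i1, i2, i3, π, hk', φ, f, h1, h2, h3, h4, h5, h6⟩ := K3.model_of hpp v hv hk
      (fun x => clsT R lg x (some r))
      (exists_fc v hk _ (fun x y hx hy => by
        refine Prod.ext ?_ ?_
        · change ((ordK (R r) (x * y) : ℤ) : ZMod ℓ) = _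
          rw [ordK_mul (R r) hx hy, Int.cast_add]
          rfl
        · exact rsK_mul hlg (R r) hx hy) (fun x hx => ⟨fun h => by
          have h1 : ((ordK (R r) x : ℤ) : ZMod ℓ) = 0 := congrArg Prod.fst h
          have h2 : rsK lg (R r) x = 0 := congrArg Prod.snd h
          exact pow_of_class_absP hq hlg (R r) v hv hvP hx
            ((ZMod.intCast_zmod_eq_zero_iff_dvd _ ℓ).1 h1) h2, fun h => by
          obtain ⟨h1, h2⟩ := class_of_pow_absP hlg (R r) v hvP hx h
          exact Prod.ext ((ZMod.intCast_zmod_eq_zero_iff_dvd _ ℓ).2 h1) h2⟩))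
      (by
        refine Prod.ext ?_ ?_
        · change ((ordK (R r) (-1) : ℤ) : ZMod ℓ) = 0
          rw [hneg, C7aux.ordK_C (R r) (neg_ne_zero.2 one_ne_zero), Int.cast_zero]
        · change rsK lg (R r) (-1) = 0
          have hdv : ¬ (R r).1 ∣ C (-1 : F) := fun h =>
            (C7aux.prime (R r)).not_isUnit (isUnit_of_dvd_unit h
              (isUnit_C.2 (isUnit_iff_ne_zero.2 (neg_ne_zero.2 one_ne_zero))))
          rw [hneg, rsK_poly hlg (R r) hdv, sy_C hlg (R r).2.1 (neg_ne_zero.2 one_ne_zero), hm,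
            mul_zero])
      (ordK (R r)) ho (Or.inl hcls) a
    refine ⟨k, i1, i2, i3, π, hk', φ, f, h1, h2, h3, h4, ?_⟩
    rintro r' hr'
    obtain rfl : r = r' := Option.some.inj hr'
    exact ⟨h5 hcls, h6⟩
  | none =>
    obtain ⟨v, hv, hvI⟩ := exists_absInf F
    have := ultra_completion v p hpp
    have hk := lf_absInf hq v hvI
    have ho : ∀ x, x ≠ 0 → ‖algebraMap (RatFunc F) v.Completion x‖ =
        ‖algebraMap (RatFunc F) v.Completion (RatFunc.X⁻¹)‖ ^ (-x.intDegree) := by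
      intro x hx
      rw [Pool.Agent.Helper47.BSD.norm_algebraMap, Pool.Agent.Helper47.BSD.norm_algebraMap,
        hvI x hx, hvI _ (inv_ne_zero RatFunc.X_ne_zero), RatFunc.intDegree_inv,
        RatFunc.intDegree_X, ← zpow_mul]
      congr 1
      ring
    obtain ⟨k, i1, i2, i3, π, hk', φ, f, h1, h2, h3, h4, h5, h6⟩ := K3.model_of hpp v hv hk
      (fun x => clsT R lg x none)
      (exists_fc v hk _ (fun x y hx hy => by
        refine Prod.ext ?_ ?_
        · change lg (lcK (x * y)) = _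
          rw [lcK_mul hx hy, hlg.1 _ _ (lcK_ne_zero hx) (lcK_ne_zero hy)]
          rfl
        · change (((x * y).intDegree : ℤ) : ZMod ℓ) = _
          rw [RatFunc.intDegree_mul hx hy, Int.cast_add]
          rfl) (fun x hx => ⟨fun h => by
          have h1 : lg (lcK x) = 0 := congrArg Prod.fst h
          have h2 : ((x.intDegree : ℤ) : ZMod ℓ) = 0 := congrArg Prod.snd h
          exact pow_of_class_absInf hq hlg v hv hvI hx
            ((ZMod.intCast_zmod_eq_zero_iff_dvd _ ℓ).1 h2) h1, fun h => by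
          obtain ⟨h1, h2⟩ := class_of_pow_absInf hlg v hvI hx h
          exact Prod.ext h2 ((ZMod.intCast_zmod_eq_zero_iff_dvd _ ℓ).2 h1)⟩))
      (by
        refine Prod.ext ?_ ?_
        · change lg (lcK (-1)) = 0
          rw [hneg, lcK_poly, leadingCoeff_C, hm]
        · change (((-1 : RatFunc F).intDegree : ℤ) : ZMod ℓ) = 0
          rw [hneg, RatFunc.intDegree_polynomial, natDegree_C]
          simp)
      (fun x => -x.intDegree) ho (Or.inr fun x _ => by
        change ((x.intDegree : ℤ) : ZMod ℓ) = _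
        rw [Int.cast_neg, neg_neg]) a
    refine ⟨k, i1, i2, i3, π, hk', φ, f, h1, h2, h3, h4, ?_⟩
    rintro r' hr'
    exact absurd hr' (by simp)

end Pool.Agent.Helper54.PT
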