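import Pool.Agent.Helper48.TG.K3
import Pool.Agent.Helper73.TG.K0
import Pool.Agent.Helper12.TG.K1
import Pool.Agent.Helper42.TG.K24

/-!
# TG module K3: the local model of a place
-/

set_option autoImplicit false

namespace Pool.Agent.Helper54.PT

open Polynomial Finset Filter Topology Module Pool.Agent.Helper43.TW Pool.Agent.Helper47.BSD

variable {F : Type} [Field F] [Finite F] {ℓ : ℕ} [Fact ℓ.Prime] {lg : F → ZMod ℓ}

/-- K3: the local model of a place (uses K0, K1, K2) -/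
theorem local_model (hq : ℓ ∣ Nat.card F - 1) (hlg : IsLog ℓ lg) (hm : lg (-1) = 0) {σ : Type}
    (R : σ → Prm F) {ι : Type} [Fintype ι] [DecidableEq ι] (a : ι → ℕ) (t : Option σ) :
    ∃ (k : Type) (_ : NontriviallyNormedField k) (_ : IsUltrametricDist k) (_ : CompleteSpace k)
      (π : k) (hk : LF ℓ π) (φ : RatFunc F →+* k) (f : Cl ℓ k →+ ZMod ℓ × ZMod ℓ),
      FC hk f ∧ cl ℓ (-1 : k) = 0 ∧ (∀ x, x ≠ 0 → f (cl ℓ (φ x)) = clsT R lg x t) ∧
      (∀ E : ι → RatFunc F, ∀ d ∈ selmerSet ℓ a E,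
        mapUnits φ d ∈ descentGroup ℓ a fun i => φ (E i)) ∧
      ∀ r, t = some r → (∀ x, (f x).1 = nu hk x) ∧
        ∀ x, x ≠ 0 → ‖φ x‖ = ‖π‖ ^ ordK (R r) x :=
  local_model_aux (fun v _ _ hk cls hmul h0 => exists_fc v hk cls hmul h0)
    (fun hq hlg P v hvn hv _ hx h1 h2 => pow_of_class_absP hq hlg P v hvn hv hx h1 h2)
    (fun hq hlg v hvn hv _ hx h1 h2 => pow_of_class_absInf hq hlg v hvn hv hx h1 h2)
    hq hlg hm R a t

end Pool.Agent.Helper54.PT
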